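import Pool.Agent.Q193.LT.Sums
import Pool.Agent.Q193.LT.Crit

/-!
# The Mumford-Tate conjecture for `H^2` and trilinear forms with a block of four variables

Let `k` be a field finitely generated over `ℚ`, with an embedding in `ℂ`, and `ℓ` a prime number. Let `M`
be the category of motives over `k` in the sense of André, a semisimple abelian category with Tate twists
`N ↦ N(a)`, and let `w₀ : M ⥤ M` be the functor `N ↦ Gr^W_0 N`, the direct factor of weight zero. For a
separated scheme `X` of finite type over `k` let `D.H i X` be the object of `M` given by the graded object
of the weight filtration of the cohomology with compact supports `H^i_c(X)`; for smooth projective `X` it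
is the motive `h^i(X)`.

Let `mt N` be the Mumford-Tate conjecture at `ℓ` for the motive `N`: the identity component of the Zariski
closure of the image of the Galois group in `GL(H_ℓ(N))` is the Mumford-Tate group of `N`, base changed
to `ℚ_ℓ`. It is inherited by direct factors (hypothesis `inherit`). The equality of the closed subgroup
schemes over `ℤ_ℓ` in question Q1 is equivalent to the equality of their generic fibres, as both are
Zariski closures of these; so question Q1 for `X` and `ℓ` is `mt (h^2(X)(1))`.

For a smooth projective surface `Y` the weight zero parts of the motives `h^i(Y)(a)` are `h^0(Y)`,
`h^2(Y)(1)` and `h^4(Y)(2)`; the first and the last are Artin motives, which do not change the identity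
components of the groups. If `Y_1, …, Y_r` are smooth projective and geometrically integral of dimension
at most two (over a finite extension of `k`, components of the given ones), `⨁ h^2(Y_j)(1)` is a direct
factor of `h^2(Y_1 × ⋯ × Y_r)(1)`; and for every smooth projective geometrically integral `X` the motive
`h^2(X)(1)` is a direct factor of `h^2(S)(1)` for a surface `S` (Lefschetz). So question Q1 (the statement
`second x` for all pairs `x` of a finite extension of `k` and a variety `X` over it, for the prime `ℓ`) is
equivalent to the Mumford-Tate conjecture for all finite direct sums of weight zero parts of Tate twists of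
motives of smooth projective schemes of dimension at most two over `k`, that is to
`SumsHave D (OfProj D 2) (fun N => mt (w₀.obj N))` (hypothesis `lefschetz`). For curves the weight zero
parts are Artin motives, and the identity components are trivial (the premise of the last clause).

**Theorem.** (1) Question Q1 for all `X` over all finite extensions of `k` (and `ℓ`) has a positive answer
if and only if the Mumford-Tate conjecture is true for all finite direct sums of weight zero parts of Tate
twists of the motives `Gr^W H^i_c(T = 1)` of the smooth affine cubic hypersurfaces `T(x, y, z) = 1` of the
trilinear forms `T` over `k` such that one of the three blocks of variables has at most four variables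
(the other two blocks are arbitrary), and of the motives of the point.

(2) For all `n`, the Mumford-Tate conjecture is true for all finite direct sums of weight zero parts of
Tate twists of motives `h^i(Y)` of smooth projective schemes `Y` of dimension at most `n` over `k` if and
only if it is true for the sums as in (1) for the `T` with a block of at most `n + 2` variables.

(3) Unconditionally, it is true for the sums as in (1) for the `T` with a block of at most three variables.
-/

set_option autoImplicit false

open CategoryTheory CategoryTheory.Limits AlgebraicGeometry Pool.Agent.Y116.UV Pool.Agent.Z125.UN
  Pool.Agent.Q193.LT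

universe v u

namespace Pool.Agent.Results.MP_6369ef_ag.FourVariables

/-- **The Mumford-Tate conjecture for `H^2` and cubic hypersurfaces.** See the explanations above. -/
theorem result {k : Type} [Field k] [CharZero k] (_hk : (⊤ : Subfield k).FG) {M : Type u}
    [Category.{v} M] [Abelian M] {D : CompactData k M} (h : IsMotives D) {w₀ : M ⥤ M}
    {mt : M → Prop}
    (inherit : ∀ {N N' : M} (i : N ⟶ N') (r : N' ⟶ N), i ≫ r = 𝟙 N → mt N' → mt N)
    {V : Type 1} {second : V → Prop}
    (lefschetz : (∀ x, second x) ↔ SumsHave D (OfProj D 2) fun N => mt (w₀.obj N)) :
    ((∀ x, second x) ↔ SumsHave D (OfForms D 4) fun N => mt (w₀.obj N)) ∧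
    (∀ n : ℕ, SumsHave D (OfProj D n) (fun N => mt (w₀.obj N)) ↔
      SumsHave D (OfForms D (n + 2)) fun N => mt (w₀.obj N)) ∧
    ((SumsHave D (OfProj D 1) fun N => mt (w₀.obj N)) →
      SumsHave D (OfForms D 3) fun N => mt (w₀.obj N)) := by
  have h1 : ∀ n : ℕ, SumsHave D (OfProj D n) (fun N => mt (w₀.obj N)) ↔
      SumsHave D (OfForms D (n + 2)) fun N => mt (w₀.obj N) := fun n =>
    sums_dim_iff h.compact h.generated h.semisimple (fun i r hir hN =>
      inherit (w₀.map i) (w₀.map r) (by rw [← w₀.map_comp, hir, w₀.map_id]) hN) n
  exact ⟨lefschetz.trans (h1 2), h1, (h1 1).mp⟩

end Pool.Agent.Results.MP_6369ef_ag.FourVariables
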