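import Pool.Agent.Q49.WU.Groups

/-!
# The Mumford-Tate conjecture for `H^2` and one weight of the cohomology of cubic hypersurfaces

Let `k` be a field finitely generated over `ℚ`, with an embedding in `ℂ`, and `ℓ` a prime number. Let `M`
be the category of motives over `k` in the sense of André, a semisimple abelian category with Tate twists
`N ↦ N(a)`, and let `w₀ : M ⥤ M` be the functor `N ↦ Gr^W_0 N`, the direct factor of weight zero. For a
separated scheme `X` of finite type over `k` let `D.H m n X` be the motive `Gr^W_{2+2m} H^n_c(X)`. For
smooth projective `Y` the motive `D.H 0 n Y` is `h^2(Y)` if `n = 2`, and zero for all other `n`.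

Let `mt N` be the Mumford-Tate conjecture at `ℓ` for the motive `N`: the identity component of the Zariski
closure of the image of the Galois group in `GL(H_ℓ(N))` is the Mumford-Tate group of `N`, base changed
to `ℚ_ℓ`. It is inherited by direct factors (hypothesis `inherit`). The equality of the closed subgroup
schemes over `ℤ_ℓ` in question Q1 is equivalent to the equality of their generic fibres, as both are
Zariski closures of these; so question Q1 for `X` and `ℓ` is `mt (h^2(X)(1))`.

The weight zero part of a finite direct sum of Tate twists of motives `h^2(Y_j)`, with `Y_j` smooth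
projective over `k`, and of Tate motives, is the direct sum of the `h^2(Y_j)(1)` for the `Y_j` which occur
with the twist `1` and of copies of the unit motive, which do not change the groups. If the
`Y_1, …, Y_r` are geometrically integral (over a finite extension of `k`, components of the given ones),
`⨁ h^2(Y_j)(1)` is a direct factor of `h^2(Y_1 × ⋯ × Y_r)(1)`. So question Q1 (the statement `second x`
for all pairs `x` of a finite extension of `k` and a variety over it, for the prime `ℓ`) is equivalent
to the Mumford-Tate conjecture for all these weight zero parts, that is to
`SumsAt D (OfProjAt D) (fun N => mt (w₀.obj N))` (hypothesis `products`).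

In the same way, for hypersurfaces `T(x, y, z) = 1` with `a` variables `x_p` the motive
`D.H (a - 1) n (T = 1) = Gr^W_{2a} H^n_c(T = 1)` has weight `2a`, and contributes to the weight zero part
of a sum of twists with the twist `(a)`. So the right hand sides below mean: the Mumford-Tate conjecture is
true for all finite direct sums of motives `Gr^W_{2a} H^n_c(T = 1)(a)` (for various `T`, `a` and `n`).

**Theorem.** (1) Question Q1 for all `X` over all finite extensions of `k` (and `ℓ`) has a positive answer
if and only if the Mumford-Tate conjecture is true for all finite direct sums of motives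
`Gr^W_{2a} H^n_c(T = 1)(a)` of the smooth affine cubic hypersurfaces `T(x, y, z) = 1` of all trilinear
forms `T` over `k` in `a` variables `x_p` and any numbers of variables `y_q`, `z_r`.

(2) If `k = ℚ`, equivalently for all finite direct sums of motives `Gr^W_{2a} H^n_c(X_H)(a)` for the
hypersurfaces `X_H : ∑_{(p, q, r) ∈ H} x_p y_q z_r = 1` of all finite sets `H` of triples. (This is
question Q1 for all varieties over all number fields.)
-/

set_option autoImplicit false

open CategoryTheory CategoryTheory.Limits AlgebraicGeometry Pool.Agent.Y116.UV Pool.Agent.Z125.UN
  Pool.Agent.Q193.LT Pool.Agent.Q49.WU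

universe v u

namespace Pool.Agent.Results.MP_6369ef_ag.OneWeightOfCubics

/-- **The Mumford-Tate conjecture for `H^2` and one weight of cubic hypersurfaces.** See the explanations
above. -/
theorem result {k : Type} [Field k] [CharZero k] (_hk : (⊤ : Subfield k).FG) {M : Type u}
    [Category.{v} M] [Abelian M] {D : WeightData k M} (h : IsWMotives D) {w₀ : M ⥤ M}
    {mt : M → Prop}
    (inherit : ∀ {N N' : M} (i : N ⟶ N') (r : N' ⟶ N), i ≫ r = 𝟙 N → mt N' → mt N)
    {V : Type 1} {second : V → Prop}
    (products : (∀ x, second x) ↔ SumsAt D (OfProjAt D) fun N => mt (w₀.obj N)) :
    ((∀ x, second x) ↔ SumsAt D (OfFormsAt D) fun N => mt (w₀.obj N)) ∧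
    (Frac k → ((∀ x, second x) ↔ SumsAt D (OfGraphsAt D) fun N => mt (w₀.obj N))) := by
  have hP : Inherits fun N => mt (w₀.obj N) := Inherits.map (P := mt) inherit w₀
  exact ⟨products.trans (sumsAt_iff h hP), fun hF => products.trans (sumsAt_graph h hP hF)⟩

end Pool.Agent.Results.MP_6369ef_ag.OneWeightOfCubics
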