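import Pool.Agent.Q71.MM.Fin3

/-!
# The Mumford-Tate conjecture for `H²` with transcendental pieces of orthogonal type

Let `X` be a smooth projective variety over a finitely generated field of characteristic zero with the
absolute Galois group `Γ` and cyclotomic character `χ`, `K` an algebraic closure of `ℚ_ℓ`, `L` the Lie
algebra of the Mumford-Tate group of `H²(X)` (and of `ℚ(1)`) and `t : L → K` its action on the Tate
structure. The theorem is proved for any group, any set `L` and any function `t`. The Mumford-Tate
conjecture for `W = H²(X)` says that the Galois representation is semisimple (over all sufficiently
large finite extensions) and that every multilinear form on `W` which an open subgroup multiplies by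
`χ ^ n` satisfies `f(a v, ..) + .. = n t(a) f(v, ..)` for all `a` in `L`: the connected reductive groups
`G_ℓ°` and `G` have the same invariants, and so they are equal.

Suppose that `W`, with coefficients in `K`, is over a finite extension the direct sum of `N` and of
copies of pieces `T_j` (of the transcendental part) with nondegenerate symmetric forms, of rank `3` or at
least `5`, irreducible under all open subgroups and not isomorphic to each other up to a twist (and not
two of rank `8`), such that for each `j`

* some element `g` of an inertia group acts on `T_j` with `(g - 1)^3 = 0`, `(g - 1)^2 ≠ 0`, and
  `g - 1` of rank `2` (type III degeneration), or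
* some Frobenius element acts on `T_j` with slopes `h + c`, `h - c` (once each) and `h`.

There is no condition on the geometric genus `p_g = h^{2,0}`.

**Theorem.** If `N` is the space of algebraic classes (a sum of Tate structures) then the
Mumford-Tate conjecture is true for `H²(X)`. In general, if the other part `N` is spanned by images of
small representations `U` (`H2Small`: for each `j` a form up to a character and small dimension, or
small rank of inertia, or few pairs of slopes with the same difference), then the Mumford-Tate
conjecture is true for `H²(X)` if and only if it is true for `N`.
-/

namespace Pool.Agent.Results.MP_6369ef_ag.OrthogonalPieces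

open Pool.Agent.Q71.MM.P Pool.Agent.Q71.AB.P

/-- **The Mumford-Tate conjecture in weight two.** -/
theorem result {K : Type} [Field K] [CharZero K] [IsAlgClosed K] {Γ : Type} [Group Γ]
    {χ : Γ →* Kˣ} {L : Type} {t : L → K} {J : Type} {T : J → Mot K Γ L}
    {N W : Mot K Γ L} (hT : H2Family χ t T) (hW : IsSum T N W) :
    (InfiniteOrder χ → TateSum χ t N → MumfordTate χ t W) ∧
    (HasPieces (fun U => ∀ j, H2Small (T j).rep U) N.rep →
      (MumfordTate χ t W ↔ MumfordTate χ t N)) :=
  ⟨fun hχ hN => Pool.Agent.Q71.MM.mt_h2_tate hT hχ hN hW,
    fun hN => Pool.Agent.Q71.MM.mt_h2 hT hN hW⟩

end Pool.Agent.Results.MP_6369ef_ag.OrthogonalPieces
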