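import Mathlib
import Pool.Agent.Q63.SP.MT

/-!
# The Mumford-Tate conjecture for complete intersections of two diagonal hypersurfaces in `P^4`

Let `X` be a smooth complete intersection of dimension two of four diagonal quadrics `∑ c_i x_i ^ 2 = 0` in
`P^6`, or of two diagonal hypersurfaces of degree three, four or six in `P^4`, over any finitely generated field
of characteristic zero. Then the Mumford-Tate conjecture holds for `H^2(X)`: the algebraic monodromy group of the
Galois representation is the Mumford-Tate group, for all `ℓ` (both in the problem are the Zariski closures of their
generic fibres).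

1. The geometry. Five lines in general position in the plane are tangent to a conic, and `n + 3` hyperplanes in
general position in `P^n` are, after the identification of `P^n` with the space of effective divisors of degree `n` on
`P^1`, the sets of the divisors which contain one of `n + 3` points. So the `m`-th root of a product of powers of the
linear forms defines a covering of `P^n` which is the image of the `n`-th power of a curve.

2. `X` is a covering of the plane with the group `(μ_m)^r/μ_m`, branched over `r` lines in general position. For a
character `a` with kernel `N_a` the surface `X/N_a` is the cyclic covering of the plane, branched over the `r` lines with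
the exponents `a`. For `r = 5` it is dominated by `C × C`, and for `m = 3, 4, 6` only abelian varieties of dimension at
most three are needed; for `m = 2`, `r = 7` it is a rational or a K3 surface. The Mumford-Tate conjecture is known for
abelian varieties of dimension at most three and for K3 surfaces, and for products of such varieties (Commelin).
-/

set_option autoImplicit false

namespace Pool.Agent.Results.MP_6369ef_ag.TwoDiagonalSurfaces

open Pool.Agent.Q63.SP

theorem result :
    (∀ (k : Type) [Field k] [DecidableEq k] [IsAlgClosed k] (n : ℕ), 0 < n →
      ∀ v : Fin (n + 3) → Fin (n + 1) → k, GenPos v →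
      ∃ (p c : Fin (n + 3) → k) (w : Fin (n + 1) → k), Function.Injective p ∧ (∀ i, c i ≠ 0) ∧ w ≠ 0 ∧
        ∀ (m : ℕ) (a : Fin (n + 3) → ℕ), 0 < m → ∃ γ : k, γ ^ m = ∏ i, c i ^ a i ∧
          (∀ u : Fin n → k × k, (∀ l, u l ∈ curve m p a) →
            ∃! t, t ∈ cover m v w a ∧ IsImage v p c γ u t) ∧
          (∀ t ∈ cover m v w a, ∃ u : Fin n → k × k, (∀ l, u l ∈ curve m p a) ∧
            IsImage v p c γ u t)) ∧
    (∀ (F V : Type) [Field F] [IsAlgClosed F] [CharZero F] [AddCommGroup V] [Module F V]
      (m r : ℕ), MTTypes m r → ∀ (ρ : Representation F (Multiplicative (Fin r → ZMod m)) V)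
        (M L : Subgroup (V ≃ₗ[F] V)), DiagonalMT m r ρ M L → M = L) :=
  ⟨fun _ _ _ _ _ hn _ hv => cover_of_curves hn hv,
    fun _ _ _ _ _ _ _ _ _ h _ _ _ hD => diagonal_mt h hD⟩

end Pool.Agent.Results.MP_6369ef_ag.TwoDiagonalSurfaces
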